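import Pool.Agent.J6H79.TD.All
import Pool.Agent.J6H79.TD.VPoly

/-!
# `NP` and `∃ℝ`: bounded tree-depth

An instance consists of a number `K` and a formula `φ`, a Boolean combination of polynomial equations
and inequalities with integer coefficients; the variables `x_i`, `i < K`, are real, the others have
the values `0` and `1` (`Sat`).  Two real variables are adjacent if they occur in a common atomic
formula.  The tree-depth of this graph is at most `d` if the real variables are vertices of a rooted
forest of height at most `d` such that adjacent variables lie on a common path from a root
(`TreeDepth`: `p i` is the list of the variables on the path from a root to `i`).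

Theorem: (1) for all `d` and `D` there is a problem in `NP` that is correct on all instances of
tree-depth at most `d` whose atomic formulas have degree at most `D` in the real variables; the
numbers of real variables, of 0/1 variables and of atomic formulas are not bounded.
(2) `∃ℝ` is contained in `NP` if and only if every problem in `∃ℝ` can be reduced in polynomial time
to instances of tree-depth at most `d` and degree at most `D` for some `d` and `D`.

Method: from the last vertices of the paths to the roots the real variables are replaced by sample
points (roots, midpoints between roots, …) of the atomic formulas in which they occur; the number of
roots is not used, only that a sample point is a root of a polynomial whose degree and coefficients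
are bounded.  Elimination of quantifiers, uniform in the coefficients, gives for each level
polynomials in the remaining variables, of bounded degree and with coefficients of bounded power
size, whose signs determine the existence of sample points with given signs; since a sign condition
for a vertex concerns only the vertices on its path, the bounds do not depend on the width of the
forest.  Hence a satisfiable instance has a solution whose real coordinates are algebraic numbers
of bounded degree with coefficients of polynomial length (`PT_all`), and at such points a nonzero
value of an atomic formula is not too small (`L_all`).  Certificates consist of approximations of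
the coordinates together with univariate expressions with a change of sign.
-/

set_option autoImplicit false

namespace Pool.Agent.Results.MP_47b99f_lc.BoundedTreeDepth

open Pool.Agent.NPC Pool.Agent.NPC.ER Pool.Agent.J6H79.FR Pool.Agent.NPC.ER.J6H79.TDV

/-- **Theorem.** (1) Formulas with real variables of bounded tree-depth and bounded degree: `NP`.
(2) `∃ℝ ⊆ NP` if and only if every problem in `∃ℝ` reduces to such formulas. -/
theorem result :
    (∀ d D : ℕ, ∃ A : Set (List Bool), InNP A ∧ ∀ (K : ℕ) (φ : Fm),
      TreeDepth d K φ → (∀ t ∈ atoms φ, rdeg K t ≤ D) → (bits (K, φ) ∈ A ↔ Sat K φ)) ∧
    ((∀ L : Set (List Bool), InER L → InNP L) ↔
      ∀ L : Set (List Bool), InER L → ∃ (d D : ℕ) (f : List Bool → ℕ × Fm),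
        PolyTime (fun w => bits (f w)) ∧ ∀ w, TreeDepth d (f w).1 (f w).2 ∧
          (∀ t ∈ atoms (f w).2, rdeg (f w).1 t ≤ D) ∧ (w ∈ L ↔ Sat (f w).1 (f w).2)) :=
  have h := member_of sound_all complete_all poly
  ⟨h, iff_of h⟩

end Pool.Agent.Results.MP_47b99f_lc.BoundedTreeDepth
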