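import Pool.Agent.J6H79.FR.Hard2

/-!
# `NP` and `∃ℝ`: few nonlinear real variables

An instance consists of numbers `k`, `g`, `D` and a formula `φ`, a Boolean combination of polynomial
equations and inequalities with integer coefficients.  Its variables are of three kinds:

* `i < k (g + 1)`: real variables in `g + 1` groups of `k` variables; the group of `i` is `i / k`;
* `i ≥ k (g + 1)`, `i` odd: real variables in the groups `(i / 2) % (g + 1)`, which may occur only
  linearly, that is, multiplied only by expressions without real variables (`LinOK`);
* `i ≥ k (g + 1)`, `i` even: variables with the values `0` and `1`.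

All atomic formulas have degree at most `D` in the variables of the first kind (`rdeg`), and no
atomic formula contains real variables of two groups (`OneGrp`).

Theorem: (1) if `(2 D + 5) ^ (k + 1)` is at most a fixed power of the length of `φ` (for example
`D` bounded and `k` logarithmic, or `k` bounded and `D` arbitrary), satisfiability is in `NP`; the
number of groups, of linear real variables and of 0/1 variables is not restricted.
Both restrictions on the real variables are needed, unless `NP = ∃ℝ`: (2) with one group of
`n ^ (1 / c)` real variables, degree 2, and no other variables, the problem is `∃ℝ`-hard;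
(3) it is `∃ℝ`-hard for groups of three real variables, degree 2, and no other variables, if atomic
formulas comparing two variables of different groups are allowed.

Method of (1): sums of squares of the equations and of the negative parts of the inequalities are
piecewise polynomials; their minimum over a ball is 0 or at least `2 ^ (- n ^ O (1))` by elimination
in the algebra of critical points of dimension `≤ (2 D + 5) ^ (k + 1)`, so dyadic points with
polynomially many digits at which all signs are clearly decided are certificates.  Linear real
variables are replaced by the coordinates of a basic solution (Cramer's rule), which belong to the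
certificate as expressions in the other variables.
-/

set_option autoImplicit false

namespace Pool.Agent.Results.MP_47b99f_lc.FewRealVariables

open Pool.Agent.NPC Pool.Agent.NPC.ER Pool.Agent.J6H79.FR

/-- **Theorem.** (1) Formulas with real variables in separate groups of logarithmic size (for
bounded degree), arbitrarily many real variables that occur linearly, and 0/1 variables: `NP`.
(2) One group of `n ^ (1 / c)` real variables: `∃ℝ`-hard. (3) Groups of three real variables, linked
by comparisons of two variables: `∃ℝ`-hard. -/
theorem result :
    (∀ c : ℕ, ∃ A : Set (List Bool), InNP A ∧ ∀ (k g D : ℕ) (φ : Fm),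
      (2 * D + 5) ^ (k + 1) ≤ φ.toks.length ^ c →
      (∀ t ∈ atoms φ, rdeg (k * (g + 1)) t ≤ D ∧ LinOK (k * (g + 1)) t ∧ OneGrp k g t) →
      (bits (k, g, D, φ) ∈ A ↔ ∃ x : ℕ → ℝ,
        (∀ i, k * (g + 1) ≤ i → i % 2 = 0 → x i = 0 ∨ x i = 1) ∧ φ.Holds x)) ∧
    (∀ (c : ℕ) (L : Set (List Bool)), InER L → ∃ f : List Bool → ℕ × Fm,
      PolyTime (fun w => bits (f w)) ∧ ∀ w, (f w).1 ^ c ≤ (f w).2.toks.length ∧
        (∀ t ∈ atoms (f w).2, rdeg (f w).1 t ≤ 2 ∧ ∀ i ∈ tvars t, i < (f w).1) ∧
        (w ∈ L ↔ ETR (f w).2)) ∧
    (∀ L : Set (List Bool), InER L → ∃ f : List Bool → ℕ × Fm,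
      PolyTime (fun w => bits (f w)) ∧ ∀ w,
        (∀ t ∈ atoms (f w).2, rdeg (3 * ((f w).1 + 1)) t ≤ 2 ∧
          (∀ i ∈ tvars t, i < 3 * ((f w).1 + 1)) ∧
          (OneGrp 3 (f w).1 t ∨ ∃ i j, t = .add (.var i) (.neg (.var j)))) ∧
        (w ∈ L ↔ ETR (f w).2)) := by
  refine ⟨fun c => ?_, fun c _ hL => ER.J6H79.hard_pow c hL, fun _ hL => ER.J6H79.hard_link hL⟩
  obtain ⟨A, hA, h⟩ := ER.J6H79.promise c
  exact ⟨A, hA, fun k g D φ h1 h2 => h k g D φ ⟨h1, h2⟩⟩

end Pool.Agent.Results.MP_47b99f_lc.FewRealVariables
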