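import Pool.Agent.J6H79.SM.All

/-!
# `NP` and `∃ℝ`: random perturbation of the constant terms

An instance consists of numbers `K`, `b`, `q ≥ 1`, a formula `φ` (a Boolean combination of polynomial
equations and inequalities with integer coefficients) and a list `r` of natural numbers, one for each
atomic formula of `φ`. The question is whether `φ` is satisfiable by real numbers `x i ∈ [- b, b]`, `i < K`,
and `x i ∈ {0, 1}`, `i ≥ K`, after `r k / q` has been added to the right-hand side of the `k`-th atomic
formula for all `k` (`PSat`).

Theorem: (1) there is a problem `A` in `NP` which contains all satisfiable instances, and which, for all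
`K`, `b`, `φ`, `q`, `N`, contains unsatisfiable instances for at most `2 ^ (c |φ|) * N ^ (m - 1)` of the
`N ^ m` lists `r` of `m` numbers `< N`, where `m` is the number of atomic formulas of `φ` and `c` is an
absolute constant. So with random numbers `r k < N = 2 ^ (c |φ| + k)` the answer of `A` is correct with
probability at least `1 - 2 ^ (- k)`, however small the perturbations `r k / q < N / q` are.
(2) Without perturbation (`r = 0`, `q = 1`, `b = 1`) the problem is `∃ℝ`-hard.

Method. `A` asks for a point with rational coordinates of polynomial length which satisfies the formula
for some perturbation at distance at most `1 / (4 q)` from the given one. The set of all perturbations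
(real vectors) for which the formula is satisfiable, and the sets which arise from it by enlarging by
`1 / (4 q)` in some of the coordinate directions, meet every line parallel to a coordinate axis in at
most `5 ^ (n + 1)` intervals, `n = O(|φ|)`, because a polynomial `G + ε Σ X i ^ 6` in `n + 1` variables with
`deg G ≤ 5` has at most `5 ^ (n + 1)` critical points. An exception lies within `1 / (4 q)` of an end point
of one of these intervals.
-/

set_option autoImplicit false

namespace Pool.Agent.Results.MP_47b99f_lc.PerturbedConstants

open Pool.Agent.NPC Pool.Agent.NPC.ER Pool.Agent.J6H79.SM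

/-- **Theorem.** (1) If random multiples of `1 / q` are added to the constant terms of all atomic
formulas, existential sentences over a box are in `NP` with one-sided error and exponentially few
exceptions. (2) Without perturbation the problem is `∃ℝ`-hard. -/
theorem result :
    (∃ (A : Set (List Bool)) (c : ℕ), InNP A ∧ ∀ (K b : ℕ) (φ : Fm) (q N : ℕ), 1 ≤ q →
      (∀ r : Fin (na φ) → Fin N, PSat K b φ (nse q (List.ofFn fun k => (r k : ℕ))) →
        bits (K, b, φ, q, List.ofFn fun k => (r k : ℕ)) ∈ A) ∧
      {r : Fin (na φ) → Fin N | bits (K, b, φ, q, List.ofFn fun k => (r k : ℕ)) ∈ A ∧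
        ¬ PSat K b φ (nse q (List.ofFn fun k => (r k : ℕ)))}.ncard ≤
          2 ^ (c * φ.toks.length) * N ^ (na φ - 1)) ∧
    (∀ L : Set (List Bool), InER L → ∃ f : List Bool → ℕ × Fm, PolyTime (fun w => bits (f w)) ∧
      ∀ w, (w ∈ L ↔ PSat (f w).1 1 (f w).2 fun _ => 0)) :=
  ⟨member_all, hard⟩

end Pool.Agent.Results.MP_47b99f_lc.PerturbedConstants
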