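import Pool.Agent.J6H79.RS.Fin

/-!
# `NP` and `∃ℝ`: regular square systems of polynomial equations

An instance is a list `S` of `N` polynomial expressions with integer coefficients (built from
variables, `0`, `1` with sums, opposites and products) in `N` unknowns.  It is *regular* if

* the equations `t = 0`, `t ∈ S`, have finitely many complex solutions,
* at every complex solution the linearised equations have only the trivial solution,
* all real solutions lie in the cube `[-1, 1]ᴺ`,
* the degrees are at most six.

Theorem: (1) every problem in `∃ℝ` is reducible in polynomial time to the question whether a regular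
square system has a real solution; (2) `∃ℝ ⊆ NP` if and only if some problem in `NP` decides this
question for the regular square systems.  So the question `NP = ∃ℝ` does not change if the instances
are restricted to systems without degenerate or infinitely many solutions.

Method: the real zeros of a sum of squares `g` in the cube are replaced by the critical points of
`∑ (x_i ^ 6 / 6 + x_i) + E ^ 2 g` with `E g ≤ 1`, where `E = 2 ^ 2 ^ K` is given by repeated squaring.
The critical points are algebraic integers, and `E` is divisible by `2`; therefore neither `E g = 1`
nor a degenerate critical point is possible.
-/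

set_option autoImplicit false

namespace Pool.Agent.Results.MP_47b99f_lc.RegularSystems

open Pool.Agent.NPC Pool.Agent.NPC.ER Pool.Agent.J6H79.RS

/-- **Theorem.** (1) Every language in `∃ℝ` is reducible in polynomial time to the existence of real
solutions of regular square systems. (2) `∃ℝ ⊆ NP` if and only if there is a language in `NP` which
contains the code of a regular square system exactly when the system has a real solution. -/
theorem result :
    (∀ L : Set (List Bool), InER L → ∃ f : List Bool → List Tm,
      PolyTime (fun w => bits (f w)) ∧ (∀ w, Regular (f w)) ∧
      ∀ w, w ∈ L ↔ ∃ x : ℕ → ℝ, ∀ t ∈ f w, t.eval x = 0) ∧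
    ((∀ L : Set (List Bool), InER L → InNP L) ↔
      ∃ A : Set (List Bool), InNP A ∧ ∀ S : List Tm, Regular S →
        (bits S ∈ A ↔ ∃ x : ℕ → ℝ, ∀ t ∈ S, t.eval x = 0)) :=
  ⟨fun _ hL => ER.J6H79.reduction hL, ER.J6H79.np_iff⟩

end Pool.Agent.Results.MP_47b99f_lc.RegularSystems
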